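import Pool.Agent.Helper73.LR.Stmts

/-! # Blaschke selection (BLA) -/

set_option autoImplicit false

open MeasureTheory Set Metric Real Filter Topology
open scoped RealInnerProductSpace ENNReal
open Pool.Agent.Helper16.Buoy (E)
open Pool.Agent.Helper73.LR

namespace Pool.Agent.Helper6.LR

open TopologicalSpace in
/-- selection in the Hausdorff metric -/
theorem select {n : ℕ} {r R : ℝ} (hr : 0 < r) (K : ℕ → Set (E n))
    (hK : ∀ k, CB (K k) ∧ closedBall 0 r ⊆ K k ∧ K k ⊆ closedBall 0 R) :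
    ∃ (L : Set (E n)) (φ : ℕ → ℕ), IsCompact L ∧ L ⊆ closedBall 0 R ∧ StrictMono φ ∧
      ∀ δ : ℝ, 0 < δ → ∃ k0 : ℕ, ∀ k, k0 ≤ k → (∀ x ∈ L, ∃ y ∈ K (φ k), dist x y < δ) ∧
        ∀ x ∈ K (φ k), ∃ y ∈ L, dist x y < δ := by
  haveI : CompactSpace (closedBall (0 : E n) R) :=
    isCompact_iff_compactSpace.1 (isCompact_closedBall _ _)
  have h0 : ∀ k, (0 : E n) ∈ K k := fun k => (hK k).2.1 (mem_closedBall_self hr.le)
  let Kc : ℕ → NonemptyCompacts (closedBall (0 : E n) R) := fun k =>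
    ⟨⟨Subtype.val ⁻¹' K k, ((hK k).1.comp.isClosed.preimage continuous_subtype_val).isCompact⟩,
      ⟨⟨0, (hK k).2.2 (h0 k)⟩, h0 k⟩⟩
  obtain ⟨Lc, φ, hφ, ht⟩ := CompactSpace.tendsto_subseq Kc
  refine ⟨Subtype.val '' (Lc : Set (closedBall (0 : E n) R)), φ,
    Lc.isCompact.image continuous_subtype_val, ?_, hφ, ?_⟩
  · rintro _ ⟨x, _, rfl⟩
    exact x.2
  intro δ hδ
  rw [Metric.tendsto_atTop] at ht
  obtain ⟨k0, hk0⟩ := ht δ hδ
  refine ⟨k0, fun k hk => ?_⟩
  have h1 := hk0 k hk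
  rw [NonemptyCompacts.dist_eq] at h1
  have hfin : hausdorffEDist ((Kc (φ k) : Set (closedBall (0 : E n) R))) (Lc : Set _) ≠ ⊤ :=
    hausdorffEDist_ne_top_of_nonempty_of_bounded (Kc (φ k)).nonempty Lc.nonempty
      (Kc (φ k)).isCompact.isBounded Lc.isCompact.isBounded
  constructor
  · rintro _ ⟨x, hx, rfl⟩
    obtain ⟨y, hy, hd⟩ := exists_dist_lt_of_hausdorffDist_lt' hx h1 hfin
    refine ⟨y.1, hy, ?_⟩
    rw [dist_comm]
    exact hd
  · intro x hx
    obtain ⟨y, hy, hd⟩ := exists_dist_lt_of_hausdorffDist_lt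
      (x := (⟨x, (hK (φ k)).2.2 hx⟩ : closedBall (0 : E n) R)) hx h1 hfin
    exact ⟨y.1, ⟨y, hy, rfl⟩, hd⟩

/-- (BLA) -/
theorem s_blaschke : S_blaschke := by
  intro n r R _ hr hR K hK
  obtain ⟨L, φ, hLc, hLR, hφ, hsel⟩ := select hr K hK
  -- points near `L` are in `L`
  have hcl : ∀ z : E n, (∀ δ : ℝ, 0 < δ → ∃ y ∈ L, dist z y < δ) → z ∈ L := by
    intro z hz
    rw [← hLc.isClosed.closure_eq, Metric.mem_closure_iff]
    exact hz
  have hball : closedBall (0 : E n) r ⊆ L := by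
    intro z hz
    refine hcl z fun δ hδ => ?_
    obtain ⟨k0, hk0⟩ := hsel δ hδ
    exact (hk0 k0 le_rfl).2 z ((hK (φ k0)).2.1 hz)
  have hconv : Convex ℝ L := by
    intro x hx y hy a b ha hb hab
    refine hcl _ fun δ hδ => ?_
    obtain ⟨k0, hk0⟩ := hsel (δ / 2) (by positivity)
    obtain ⟨h1, h2⟩ := hk0 k0 le_rfl
    obtain ⟨x', hx', hdx⟩ := h1 x hx
    obtain ⟨y', hy', hdy⟩ := h1 y hy
    obtain ⟨z, hz, hdz⟩ := h2 _ ((hK (φ k0)).1.conv hx' hy' ha hb hab)
    refine ⟨z, hz, ?_⟩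
    have h3 : dist (a • x + b • y) (a • x' + b • y') ≤ δ / 2 := by
      rw [dist_eq_norm]
      have e : a • x + b • y - (a • x' + b • y') = a • (x - x') + b • (y - y') := by
        rw [smul_sub, smul_sub]; abel
      rw [e]
      refine (norm_add_le _ _).trans ?_
      rw [norm_smul, norm_smul, Real.norm_of_nonneg ha, Real.norm_of_nonneg hb]
      rw [dist_eq_norm] at hdx hdy
      nlinarith
    have h4 := dist_triangle (a • x + b • y) (a • x' + b • y') z
    linarith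
  refine ⟨L, φ, ⟨hconv, hLc, ?_⟩, hball, hLR, hφ, ?_⟩
  · refine ⟨0, ?_⟩
    exact interior_mono hball (ball_subset_interior_closedBall (mem_ball_self hr))
  intro ε hε hε1
  obtain ⟨k0, hk0⟩ := hsel (ε * r / 2) (by positivity)
  refine ⟨k0, fun k hk => ?_⟩
  obtain ⟨h1, h2⟩ := hk0 k hk
  constructor
  · rintro _ ⟨x, hx, rfl⟩
    obtain ⟨y, hy, hd⟩ := h1 x hx
    rw [dist_eq_norm] at hd
    have hu : ((1 - ε) / ε) • (x - y) ∈ K (φ k) := by
      apply (hK (φ k)).2.1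
      rw [mem_closedBall_zero_iff, norm_smul, Real.norm_of_nonneg (by
        apply div_nonneg <;> linarith)]
      have h3 : (1 - ε) / ε * ‖x - y‖ ≤ (1 - ε) / ε * (ε * r / 2) :=
        mul_le_mul_of_nonneg_left hd.le (by apply div_nonneg <;> linarith)
      refine h3.trans ?_
      have h4 : (1 - ε) / ε * (ε * r / 2) = (1 - ε) * r / 2 := by field_simp
      rw [h4]
      nlinarith
    have h5 := (hK (φ k)).1.conv hy hu (by linarith : (0:ℝ) ≤ 1 - ε) hε.le (by ring)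
    have e : (1 - ε) • y + ε • ((1 - ε) / ε) • (x - y) = (1 - ε) • x := by
      rw [smul_smul, mul_div_cancel₀ _ hε.ne', smul_sub]
      abel
    rw [e] at h5
    exact h5
  · intro x hx
    obtain ⟨y, hy, hd⟩ := h2 x hx
    rw [dist_eq_norm] at hd
    have hu : (1 / ε) • (x - y) ∈ L := by
      apply hball
      rw [mem_closedBall_zero_iff, norm_smul, Real.norm_of_nonneg (by positivity)]
      have h3 : 1 / ε * ‖x - y‖ ≤ 1 / ε * (ε * r / 2) :=
        mul_le_mul_of_nonneg_left hd.le (by positivity)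
      refine h3.trans ?_
      have h4 : 1 / ε * (ε * r / 2) = r / 2 := by field_simp
      rw [h4]
      linarith
    have h1e : (0:ℝ) < 1 + ε := by linarith
    have h5 := hconv hy hu (by positivity : (0:ℝ) ≤ 1 / (1 + ε))
      (by positivity : (0:ℝ) ≤ ε / (1 + ε)) (by field_simp)
    refine ⟨_, h5, ?_⟩
    simp only
    rw [smul_add, smul_smul, smul_smul, smul_smul]
    have e1 : (1 + ε) * (1 / (1 + ε)) = 1 := by field_simp
    have e2 : (1 + ε) * (ε / (1 + ε)) * (1 / ε) = 1 := by field_simp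
    have e3 : (1 + ε) * (ε / (1 + ε) * (1 / ε)) = 1 := by field_simp
    first
      | rw [e1, e2, one_smul, one_smul]; abel
      | rw [e1, e3, one_smul, one_smul]; abel

end Pool.Agent.Helper6.LR
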