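import Pool.Agent.Helper73.LR.Stmts

/-! # Vanishing moments on the sphere (DEN) -/

set_option autoImplicit false

open MeasureTheory Set Metric Real
open scoped RealInnerProductSpace ENNReal
open Pool.Agent.Helper16.Buoy (E)
open Pool.Agent.Helper73.LR

namespace Pool.Agent.Helper6.LR

instance instFin (n : ℕ) : IsFiniteMeasure (sg n) := by unfold sg; infer_instance
instance instOpen (n : ℕ) : (sg n).IsOpenPosMeasure := by unfold sg; infer_instance

/-- the function `x ↦ exp <w,x>` on the sphere -/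
noncomputable def ex {n : ℕ} (w : E n) : C(SS n, ℝ) :=
  ⟨fun x => Real.exp (inner ℝ w (x : E n)), by fun_prop⟩

theorem moments {n : ℕ} {ψ : SS n → ℝ}
    (h : ∀ (d : ℕ) (e : E n), ‖e‖ = 1 → ∫ x : SS n, ψ x * (inner ℝ e (x : E n)) ^ d ∂(sg n) = 0)
    (h0 : (SS n).Nonempty) (d : ℕ) (w : E n) :
    ∫ x : SS n, ψ x * (inner ℝ w (x : E n)) ^ d ∂(sg n) = 0 := by
  by_cases hw : w = 0
  · subst hw
    rcases Nat.eq_zero_or_pos d with rfl | hd
    · obtain ⟨e, he⟩ := h0
      have := h 0 e (by simpa using he)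
      simpa using this
    · simp [hd.ne']
  · have hw' : 0 < ‖w‖ := norm_pos_iff.2 hw
    have h1 := h d (‖w‖⁻¹ • w) (by rw [norm_smul, norm_inv, norm_norm, inv_mul_cancel₀ hw'.ne'])
    have h2 : ∀ x : SS n, ψ x * (inner ℝ w (x : E n)) ^ d
        = ‖w‖ ^ d * (ψ x * (inner ℝ (‖w‖⁻¹ • w) (x : E n)) ^ d) := by
      intro x
      rw [real_inner_smul_left, mul_pow, inv_pow]
      field_simp
    simp_rw [h2]
    rw [integral_const_mul, h1, mul_zero]

theorem exp_moment {n : ℕ} {ψ : SS n → ℝ} (hc : Continuous ψ)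
    (h : ∀ (d : ℕ) (w : E n), ∫ x : SS n, ψ x * (inner ℝ w (x : E n)) ^ d ∂(sg n) = 0)
    (w : E n) : ∫ x : SS n, ψ x * Real.exp (inner ℝ w (x : E n)) ∂(sg n) = 0 := by
  obtain ⟨M, hM⟩ := isCompact_univ.exists_bound_of_continuousOn (f := ψ) hc.continuousOn
  have hM' : ∀ x, ‖ψ x‖ ≤ M := fun x => hM x (mem_univ x)
  have hin : ∀ x : SS n, |inner ℝ w (x : E n)| ≤ ‖w‖ := by
    intro x
    have h1 := abs_real_inner_le_norm w (x : E n)
    have h2 : ‖(x : E n)‖ = 1 := by simpa using x.2
    rwa [h2, mul_one] at h1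
  have hF : ∀ d : ℕ, Integrable (fun x : SS n => ψ x * ((inner ℝ w (x : E n)) ^ d / d.factorial))
      (sg n) := by
    intro d
    have hcd : Continuous (fun x : SS n => ψ x * ((inner ℝ w (x : E n)) ^ d / d.factorial)) := by
      fun_prop
    exact hcd.integrable_of_hasCompactSupport (HasCompactSupport.of_compactSpace _)
  have hb : ∀ (d : ℕ), ∫ x : SS n, ‖ψ x * ((inner ℝ w (x : E n)) ^ d / d.factorial)‖ ∂(sg n)
      ≤ (M * (sg n).real univ) * (‖w‖ ^ d / d.factorial) := by
    intro d
    have h1 : ∀ x : SS n, ‖ψ x * ((inner ℝ w (x : E n)) ^ d / d.factorial)‖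
        ≤ M * (‖w‖ ^ d / d.factorial) := by
      intro x
      rw [norm_mul]
      refine mul_le_mul (hM' x) ?_ (norm_nonneg _) ((norm_nonneg _).trans (hM' x))
      rw [norm_div, norm_pow, Real.norm_eq_abs, Real.norm_natCast]
      exact div_le_div_of_nonneg_right (pow_le_pow_left₀ (abs_nonneg _) (hin x) d)
        (Nat.cast_nonneg _)
    calc ∫ x : SS n, ‖ψ x * ((inner ℝ w (x : E n)) ^ d / d.factorial)‖ ∂(sg n)
        ≤ ∫ _ : SS n, M * (‖w‖ ^ d / d.factorial) ∂(sg n) :=
          integral_mono (hF d).norm (integrable_const _) h1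
      _ = _ := by rw [integral_const, smul_eq_mul]; ring
  have hs : Summable (fun d : ℕ => ∫ x : SS n, ‖ψ x * ((inner ℝ w (x : E n)) ^ d / d.factorial)‖
      ∂(sg n)) :=
    Summable.of_nonneg_of_le (fun d => integral_nonneg fun x => norm_nonneg _) hb
      ((Real.summable_pow_div_factorial ‖w‖).mul_left _)
  have h3 := hasSum_integral_of_summable_integral_norm hF hs
  have h4 : ∀ d : ℕ, ∫ x : SS n, ψ x * ((inner ℝ w (x : E n)) ^ d / d.factorial) ∂(sg n) = 0 := by
    intro d
    have h5 : ∀ x : SS n, ψ x * ((inner ℝ w (x : E n)) ^ d / d.factorial)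
        = (d.factorial : ℝ)⁻¹ * (ψ x * (inner ℝ w (x : E n)) ^ d) := by
      intro x; field_simp
    simp_rw [h5]
    rw [integral_const_mul, h d w, mul_zero]
  simp_rw [h4] at h3
  have h6 := h3.unique hasSum_zero
  rw [← h6]
  refine integral_congr_ae (Filter.Eventually.of_forall fun x => ?_)
  simp only
  rw [tsum_mul_left, Real.exp_eq_exp_ℝ, NormedSpace.exp_eq_tsum_div]

/-- (DEN) -/
theorem s_dense : S_dense := by
  intro n ψ hc h
  by_cases h0 : (SS n).Nonempty
  swap
  · intro x
    exact absurd ⟨x.1, x.2⟩ h0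
  have hexp := exp_moment hc (moments h h0)
  -- the set of exponentials
  let M : Submonoid C(SS n, ℝ) :=
    { carrier := Set.range (fun w : E n => ex w)
      one_mem' := ⟨0, by ext x; simp [ex]⟩
      mul_mem' := by
        rintro _ _ ⟨w, rfl⟩ ⟨w', rfl⟩
        refine ⟨w + w', ?_⟩
        ext x
        simp [ex, inner_add_left, Real.exp_add] }
  let A : Subalgebra ℝ C(SS n, ℝ) := Algebra.adjoin ℝ (M : Set C(SS n, ℝ))
  have hA : A.SeparatesPoints := by
    intro x y hxy
    have hxy' : (x : E n) ≠ y := fun e => hxy (Subtype.ext e)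
    refine ⟨ex ((x : E n) - (y : E n)), ?_, ?_⟩
    · exact ⟨ex ((x : E n) - (y : E n)), Algebra.subset_adjoin ⟨_, rfl⟩, rfl⟩
    · simp only [ex, ContinuousMap.coe_mk]
      intro e
      have e1 := Real.exp_injective e
      have e2 : inner ℝ ((x : E n) - (y : E n)) ((x : E n) - (y : E n)) = (0 : ℝ) := by
        rw [inner_sub_right]; linarith
      rw [inner_self_eq_zero] at e2
      exact hxy' (sub_eq_zero.1 e2)
  have htop := ContinuousMap.subalgebra_topologicalClosure_eq_top_of_separatesPoints A hA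
  -- the functional
  have hint : ∀ f : C(SS n, ℝ), Integrable (fun x : SS n => ψ x * f x) (sg n) := by
    intro f
    have : Continuous (fun x : SS n => ψ x * f x) := hc.mul f.continuous
    exact this.integrable_of_hasCompactSupport (HasCompactSupport.of_compactSpace _)
  have hspan : ∀ f ∈ Submodule.span ℝ (M : Set C(SS n, ℝ)),
      ∫ x : SS n, ψ x * f x ∂(sg n) = 0 := by
    intro f hf
    induction hf using Submodule.span_induction with
    | mem f hf =>
      obtain ⟨w, rfl⟩ := hf
      exact hexp w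
    | zero => simp
    | add f g _ _ hf hg =>
      have : ∀ x : SS n, ψ x * (f + g) x = ψ x * f x + ψ x * g x := by
        intro x; simp [mul_add]
      simp_rw [this]
      rw [integral_add (hint f) (hint g), hf, hg, add_zero]
    | smul a f _ hf =>
      have : ∀ x : SS n, ψ x * (a • f) x = a * (ψ x * f x) := by
        intro x; simp; ring
      simp_rw [this]
      rw [integral_const_mul, hf, mul_zero]
  have hAz : ∀ f ∈ A, ∫ x : SS n, ψ x * f x ∂(sg n) = 0 := by
    intro f hf
    apply hspan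
    have h1 : Subalgebra.toSubmodule A = Submodule.span ℝ (M : Set C(SS n, ℝ)) := by
      rw [Algebra.adjoin_eq_span, Submonoid.closure_eq]
    rw [← h1]
    exact hf
  -- approximate `ψ`
  let Ψ : C(SS n, ℝ) := ⟨ψ, hc⟩
  have hsq : ∫ x : SS n, ψ x * ψ x ∂(sg n) = 0 := by
    obtain ⟨C, hC⟩ := isCompact_univ.exists_bound_of_continuousOn (f := ψ) hc.continuousOn
    have hC' : ∀ x, ‖ψ x‖ ≤ C := fun x => hC x (mem_univ x)
    have hC0 : 0 ≤ C := by
      obtain ⟨e, he⟩ := h0
      exact (norm_nonneg _).trans (hC' ⟨e, he⟩)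
    have key : ∀ ε : ℝ, 0 < ε → |∫ x : SS n, ψ x * ψ x ∂(sg n)| ≤ C * ε * (sg n).real univ := by
      intro ε hε
      have hmem : Ψ ∈ A.topologicalClosure := by rw [htop]; trivial
      rw [← SetLike.mem_coe, Subalgebra.topologicalClosure_coe, Metric.mem_closure_iff] at hmem
      obtain ⟨f, hf, hd⟩ := hmem ε hε
      have h1 : ∫ x : SS n, ψ x * ψ x ∂(sg n) = ∫ x : SS n, ψ x * (ψ x - f x) ∂(sg n) := by
        have : ∀ x : SS n, ψ x * (ψ x - f x) = ψ x * Ψ x - ψ x * f x := by
          intro x; simp only [Ψ, ContinuousMap.coe_mk]; ring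
        simp_rw [this]
        rw [integral_sub (hint Ψ) (hint f), hAz f hf, sub_zero]
        rfl
      rw [h1, ← Real.norm_eq_abs]
      refine norm_integral_le_of_norm_le_const (Filter.Eventually.of_forall fun x => ?_)
      rw [norm_mul]
      refine mul_le_mul (hC' x) ?_ (norm_nonneg _) hC0
      have h2 := ContinuousMap.dist_apply_le_dist (f := Ψ) (g := f) x
      have h3 : dist (Ψ x) (f x) = ‖ψ x - f x‖ := by rw [dist_eq_norm]; rfl
      rw [h3] at h2
      linarith
    by_contra hne
    have hpos : 0 < |∫ x : SS n, ψ x * ψ x ∂(sg n)| := abs_pos.2 hne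
    set I := |∫ x : SS n, ψ x * ψ x ∂(sg n)| with hI
    set D := C * (sg n).real univ with hD
    have hD0 : 0 ≤ D := mul_nonneg hC0 measureReal_nonneg
    have := key (I / (2 * (D + 1))) (by positivity)
    have h4 : C * (I / (2 * (D + 1))) * (sg n).real univ = I * (D / (2 * (D + 1))) := by
      rw [hD]; ring
    rw [h4] at this
    have h5 : D / (2 * (D + 1)) < 1 := by
      rw [div_lt_one (by positivity)]; linarith
    nlinarith
  intro x
  by_contra hx
  have h7 : 0 < ∫ x : SS n, ψ x * ψ x ∂(sg n) := by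
    refine Continuous.integral_pos_of_hasCompactSupport_nonneg_nonzero (hc.mul hc)
      (HasCompactSupport.of_compactSpace _) (fun y => mul_self_nonneg _) (x := x) ?_
    exact mul_self_ne_zero.2 hx
  exact h7.ne' hsq

end Pool.Agent.Helper6.LR
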